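import Pool.Agent.Lib_MP_5661ce_lc.Main

/-!
# Deciding generic independence of plane point-line incidences is NP-hard
-/

namespace Pool.Agent.Results.MP_5661ce_lc.NPHard

open Pool.Agent.IncInd

/-- Every language in `NP` reduces in polynomial time to the problem of deciding independence of
an incidence structure. -/
theorem result (Γ : Type) [Fintype Γ] (L : Set (List Γ)) (hL : InNP L) : PolyReduces L INDEP :=
  hard L hL

end Pool.Agent.Results.MP_5661ce_lc.NPHard
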