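import Pool.Agent.II95.Main95

/-!
# Independence at realizations with different points and different lines is NP-hard
-/

namespace Pool.Agent.Results.MP_5661ce_lc.NPHardDistinct

open Pool.Agent.IncInd Pool.Agent.II95 Turing

/-- Every language in `NP` reduces in polynomial time to the problem of deciding whether an incidence
structure is independent at a non-degenerate realization with different points and different lines.
The reduction can be chosen so that the structures of the words in the language have realizations
with different points and different lines, all of which are non-degenerate and have independent rows,
whereas the structures of the other words have no realization with different points and different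
lines at all. -/
theorem result (Γ : Type) [Fintype Γ] (L : Set (List Γ)) (hL : InNP L) :
    PolyReduces L INDEPD ∧
    ∃ f : List Γ → List Sym,
      Nonempty (TM2ComputableInPolyTime (fun x : List Γ => x) (fun y : List Sym => y) f) ∧
      ∀ x, ∃ S : Inc, S.Valid ∧ f x = S.code ∧ (x ∈ L → StrongYes S) ∧ (x ∉ L → StrongNo S) :=
  ⟨hard_distinct L hL, reduction L hL⟩

end Pool.Agent.Results.MP_5661ce_lc.NPHardDistinct
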